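import Pool.Agent.Helper77.HE.SheetP2
import Pool.Agent.Helper20.HN.T1P

/-! Project HP2, row T1P2: the theorem over a Galois number field, odd degree, rational points with
denominators, with costs at the places (a cost may be negative where the point is large). -/

set_option autoImplicit false

namespace Pool.Agent.Helper48.HP

open Polynomial Filter Finset Pool.Agent.Helper70.SUB Pool.Agent.Helper77.SUBK
  Pool.Agent.Helper70.SUBL Pool.Agent.Helper70.SUBW Pool.Agent.Helper71.JN Pool.Agent.Helper71.HN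
  Pool.Agent.Helper71.HZ Pool.Agent.Helper71.HE Pool.Agent.Helper71.HO Pool.Agent.Helper71.HP
  Pool.Agent.Helper2.HZ Pool.Agent.Helper34.HO Pool.Agent.Helper20.HM Pool.Agent.Helper20.HP
  Pool.Agent.Helper77.HP2

theorem min_add {a b : ℝ} (ha : 0 ≤ a) : a + min b (2 * b) ≤ min (b + a) (2 * (b + a)) := by
  have h1 := min_le_left b (2 * b)
  have h2 := min_le_right b (2 * b)
  exact le_min (by linarith) (by linarith)

theorem T1P2 (hSLW : ST_SLW) (hSPH : ST_SPH) (hBRGP : ST_BRGP2) : ST_T1P2 := by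
  classical
  intro M _ _ _ S S₀ P k t g κ δ θ B hS hSS hg hδ hθ hB
  by_contra hcon
  have hex : ∀ j : ℕ, ∃ s : DatG M t, (0 ≤ s.H ∧ s.F.natDegree = 2 * g + 1 ∧ s.F.Separable ∧
      s.y ^ 2 = s.F.eval s.x ∧
      (∀ i, HBZ P.emb (Real.exp (κ * (s.H + 1))) (s.F.coeff i)) ∧ s.m ≠ 0 ∧
      SI S₀ ((s.m : M) * s.x) ∧ (s.m : ℝ) ≤ Real.exp (B * s.T) ∧
      (∀ o ∈ plc S, ∀ σ : M ≃ₐ[ℚ] M, P.nv o (σ s.x) ≤ Real.exp (B * s.T)) ∧
      ¬ HBZ P.emb (Real.exp (s.T / B)) s.x ∧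
      (∀ o ∈ plc S₀, ∀ σ, -(B * s.T) ≤ s.u o σ ∧
        (1 ≤ k o σ → (∀ i, HBZ P.emb (Real.exp (κ * (s.H + 1))) (s.e o σ i)) ∧
          P.nv o (σ ((polD M (k o σ) (s.e o σ)).eval s.x)) ≤
            Real.exp (k o σ * min (s.u o σ) (2 * s.u o σ))) ∧
        (k o σ = 0 → (0 ≤ s.u o σ ∨ Real.exp (θ * s.T) ≤ P.nv o (σ s.x)) ∧
          (∀ i, SV S (s.a o σ i)) ∧ (∀ i, SV S (s.b o σ i)) ∧
          (∀ i, HBZ P.emb (Real.exp (κ * (s.H + 1))) (s.c o σ i)) ∧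
          (∀ i, HBZ P.emb (Real.exp (κ * (s.H + 1))) (s.d o σ i)) ∧
          HBZ P.emb (Real.exp (B * s.T)) (∑ i, s.c o σ i * s.a o σ i) ∧
          HBZ P.emb (Real.exp (B * s.T)) (∑ i, s.d o σ i * s.b o σ i) ∧
          ∑ i, s.d o σ i * s.b o σ i ≠ 0 ∧
          P.nv o (σ (s.x - s.F.coeff (2 * g + 1) *
            ((∑ i, s.c o σ i * s.a o σ i) / ∑ i, s.d o σ i * s.b o σ i) ^ 2)) ≤
              Real.exp (s.u o σ))) ∧
      (Fintype.card (M ≃ₐ[ℚ] M) : ℝ) * Real.log s.m +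
        ∑ o ∈ plc S₀, ∑ σ : M ≃ₐ[ℚ] M, s.u o σ + δ * s.T ≤
        1 / 2 * ∑ o ∈ plc S₀, ∑ σ : M ≃ₐ[ℚ] M, Real.log (max 1 (P.nv o (σ s.x)))) ∧
      ((j : ℝ) + 1) * (s.H + 1) < s.T := by
    intro j
    by_contra h
    apply hcon
    refine ⟨(j : ℝ) + 1, by positivity, fun F x y H T m c d a b e u h0 h1 h2 h3 h5 h6 h7 h8
      h9 h10 h11 h12 => ?_⟩
    by_contra h'
    exact h ⟨⟨F, x, y, 0, H, T, m, c, d, a, b, e, u⟩,
      ⟨h0, h1, h2, h3, h5, h6, h7, h8, h9, h10, h11, h12⟩, not_le.1 h'⟩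
  choose s hs hlt using hex
  obtain ⟨φ, hφ⟩ : ∃ φ : Ultrafilter ℕ, (φ : Filter ℕ) ≤ atTop := by
    refine ⟨hyperfilter ℕ, ?_⟩
    rw [← Nat.cofinite_eq_atTop]
    exact hyperfilter_le_cofinite
  set F : ℕ → M[X] := fun j => (s j).F with hF
  set x : ℕ → M := fun j => (s j).x with hx
  set y : ℕ → M := fun j => (s j).y with hy
  set H : ℕ → ℝ := fun j => (s j).H with hH
  set m : ℕ → ℕ := fun j => (s j).m with hm
  set c : Option ℕ → (M ≃ₐ[ℚ] M) → Fin t → ℕ → M := fun o σ i j => (s j).c o σ i with hc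
  set d : Option ℕ → (M ≃ₐ[ℚ] M) → Fin t → ℕ → M := fun o σ i j => (s j).d o σ i with hd
  set a : Option ℕ → (M ≃ₐ[ℚ] M) → Fin t → ℕ → M := fun o σ i j => (s j).a o σ i with ha
  set b : Option ℕ → (M ≃ₐ[ℚ] M) → Fin t → ℕ → M := fun o σ i j => (s j).b o σ i with hb
  set e : Option ℕ → (M ≃ₐ[ℚ] M) → ℕ → ℕ → M := fun o σ i j => (s j).e o σ i with he
  set u : Option ℕ → (M ≃ₐ[ℚ] M) → ℕ → ℝ := fun o σ j => (s j).u o σ with hu
  set p : Option ℕ → (M ≃ₐ[ℚ] M) → ℕ → M := fun o σ j => ∑ i, c o σ i j * a o σ i j with hp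
  set q : Option ℕ → (M ≃ₐ[ℚ] M) → ℕ → M := fun o σ j => ∑ i, d o σ i j * b o σ i j with hq
  set L : ℕ → ℝ := fun j => (s j).T with hL
  set l : ℕ → M := fun j => (F j).coeff (2 * g + 1) with hl
  have f0 : ∀ j, 0 ≤ H j := fun j => (hs j).1
  have f1 : ∀ j, (F j).natDegree = 2 * g + 1 := fun j => (hs j).2.1
  have f2 : ∀ j, (F j).Separable := fun j => (hs j).2.2.1
  have f3 : ∀ j, y j ^ 2 = (F j).eval (x j) := fun j => (hs j).2.2.2.1
  have f5 : ∀ j i, HBZ P.emb (Real.exp (κ * (H j + 1))) ((F j).coeff i) :=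
    fun j => (hs j).2.2.2.2.1
  have f6 : ∀ j, m j ≠ 0 := fun j => (hs j).2.2.2.2.2.1
  have f7 : ∀ j, SI S₀ ((m j : M) * x j) := fun j => (hs j).2.2.2.2.2.2.1
  have f8 : ∀ j, (m j : ℝ) ≤ Real.exp (B * L j) := fun j => (hs j).2.2.2.2.2.2.2.1
  have f9 : ∀ j, ∀ o ∈ plc S, ∀ σ : M ≃ₐ[ℚ] M, P.nv o (σ (x j)) ≤ Real.exp (B * L j) :=
    fun j => (hs j).2.2.2.2.2.2.2.2.1
  have f10 : ∀ j, ¬ HBZ P.emb (Real.exp (L j / B)) (x j) :=
    fun j => (hs j).2.2.2.2.2.2.2.2.2.1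
  have hu1 : ∀ o ∈ plc S₀, ∀ σ j, -(B * L j) ≤ u o σ j :=
    fun o ho σ j => ((hs j).2.2.2.2.2.2.2.2.2.2.1 o ho σ).1
  have hV1 : ∀ o ∈ plc S₀, ∀ σ, 1 ≤ k o σ → ∀ j,
      (∀ i, HBZ P.emb (Real.exp (κ * (H j + 1))) (e o σ i j)) ∧
      P.nv o (σ ((polD M (k o σ) (fun i => e o σ i j)).eval (x j))) ≤
        Real.exp (k o σ * min (u o σ j) (2 * u o σ j)) :=
    fun o ho σ hv j => ((hs j).2.2.2.2.2.2.2.2.2.2.1 o ho σ).2.1 hv
  have hV2 : ∀ o ∈ plc S₀, ∀ σ, k o σ = 0 → ∀ j,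
      (0 ≤ u o σ j ∨ Real.exp (θ * L j) ≤ P.nv o (σ (x j))) ∧ (∀ i, SV S (a o σ i j)) ∧
      (∀ i, SV S (b o σ i j)) ∧
      (∀ i, HBZ P.emb (Real.exp (κ * (H j + 1))) (c o σ i j)) ∧
      (∀ i, HBZ P.emb (Real.exp (κ * (H j + 1))) (d o σ i j)) ∧
      HBZ P.emb (Real.exp (B * L j)) (p o σ j) ∧
      HBZ P.emb (Real.exp (B * L j)) (q o σ j) ∧ q o σ j ≠ 0 ∧
      P.nv o (σ (x j - l j * (p o σ j / q o σ j) ^ 2)) ≤ Real.exp (u o σ j) :=
    fun o ho σ hv j => ((hs j).2.2.2.2.2.2.2.2.2.2.1 o ho σ).2.2 hv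
  have hmain : ∀ j, (Fintype.card (M ≃ₐ[ℚ] M) : ℝ) * Real.log (m j) +
      ∑ o ∈ plc S₀, ∑ σ : M ≃ₐ[ℚ] M, u o σ j + δ * L j ≤
      1 / 2 * ∑ o ∈ plc S₀, ∑ σ : M ≃ₐ[ℚ] M, Real.log (max 1 (P.nv o (σ (x j)))) :=
    fun j => (hs j).2.2.2.2.2.2.2.2.2.2.2
  have hlt' : ∀ j : ℕ, ((j : ℝ) + 1) * (H j + 1) < L j := hlt
  have hl0 : ∀ j, l j ≠ 0 := fun j => lead_ne (f1 j)
  have hLj : ∀ j : ℕ, (j : ℝ) + 1 ≤ L j := fun j => by
    have h1 := hlt' j
    have h2 := f0 j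
    have h3 : ((j : ℝ) + 1) * 1 ≤ ((j : ℝ) + 1) * (H j + 1) :=
      mul_le_mul_of_nonneg_left (by linarith) (by positivity)
    linarith
  have hL0 : ∀ j, 0 ≤ L j := fun j => by
    have h1 := hLj j
    have h2 : (0 : ℝ) ≤ j := Nat.cast_nonneg j
    linarith
  -- the scale
  set X : ℕ → ℝ := fun j => Real.exp (L j) with hX
  have hXr : ∀ (j : ℕ) (e : ℝ), X j ^ e = Real.exp (e * L j) := fun j e => by
    rw [hX, mul_comm]
    exact (Real.exp_mul _ _).symm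
  have hXlog : ∀ j, Real.log (X j) = L j := fun j => Real.log_exp _
  have hXX : Tendsto X (φ : Filter ℕ) atTop := by
    refine Tendsto.mono_left ?_ hφ
    refine Real.tendsto_exp_atTop.comp ?_
    refine tendsto_atTop_mono hLj ?_
    exact tendsto_natCast_atTop_atTop.atTop_add tendsto_const_nhds
  have hE : ∀ K ε : ℝ, 0 < ε → ∀ᶠ j in (φ : Filter ℕ), Real.exp (K * (H j + 1)) ≤ X j ^ ε := by
    intro K ε hε
    obtain ⟨N, hN⟩ := exists_nat_ge (K / ε)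
    filter_upwards [hφ (eventually_ge_atTop N)] with j h2
    have h4 : K / ε ≤ (j : ℝ) + 1 := by
      have : (N : ℝ) ≤ j := by exact_mod_cast h2
      linarith
    rw [div_le_iff₀ hε] at h4
    rw [hXr]
    refine Real.exp_le_exp.2 ?_
    have h5 : K * (H j + 1) ≤ ((j : ℝ) + 1) * ε * (H j + 1) :=
      mul_le_mul_of_nonneg_right h4 (by linarith [f0 j])
    have h6 : ε * (((j : ℝ) + 1) * (H j + 1)) ≤ ε * L j :=
      mul_le_mul_of_nonneg_left (hlt' j).le hε.le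
    linarith
  -- slow sequences
  obtain ⟨hconst, hops, hinv, _, _, _, _, _, _, _, _, hcd, _⟩ := hSLW M S P φ X hS hXX
  have hslH : ∀ z : ℕ → M, (∀ j, HBZ P.emb (Real.exp (κ * (H j + 1))) (z j)) →
      Slw P φ X z := by
    intro z hz ε hε
    filter_upwards [hE κ ε hε] with j hj
    obtain ⟨⟨D, h1, h2, h3⟩, h4⟩ := hz j
    exact ⟨D, h1, h2.trans hj, h3, fun σ => by rw [P.inf]; exact (h4 σ).trans hj⟩
  have hslF : ∀ i, Slw P φ X (fun j => (F j).coeff i) := fun i => hslH _ fun j => f5 j i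
  have hslpow : ∀ (z : ℕ → M) (n : ℕ), Slw P φ X z → Slw P φ X (fun j => z j ^ n) := by
    intro z n hz
    induction n with
    | zero => simpa using hconst 1
    | succ n ih => simpa [pow_succ] using (hops _ _ ih hz).2
  have hsll : Slw P φ X l := hslF (2 * g + 1)
  have hsli : Slw P φ X (fun j => (l j)⁻¹) := hinv _ hsll
  have hsla : ∀ i, Slw P φ X (fun j => co g (F j) i) := fun i =>
    (hops _ _ (hops _ _ (hslF i) (hslpow _ i hsll)).2 (hinv _ (hslpow _ (2 * g + 2) hsll))).2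
  -- moderate sums
  have hHB : ∀ z : ℕ → M, (∀ j, HBZ P.emb (Real.exp (B * L j)) (z j)) →
      ∀ᶠ j in (φ : Filter ℕ), HB P (X j ^ B) (z j) := by
    intro z hz
    refine Eventually.of_forall fun j v hv σ => ?_
    refine (Pool.Agent.Helper94.SUBW.SP_nv hS (H := Real.exp (B * L j)) ?_ hv
      σ).trans (hXr j B).ge
    obtain ⟨⟨D, h1, h2, h3⟩, h4⟩ := hz j
    exact ⟨D, h1, h2, h3, fun τ => by rw [P.inf]; exact h4 τ⟩
  have hpM : ∀ o ∈ plc S₀, ∀ σ, k o σ = 0 → SpM P φ X (p o σ) ∧ SpM P φ X (q o σ) := by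
    intro o ho σ hv
    constructor
    · refine hSPH M S P φ X (p o σ) _ hS hXX ?_
        (hHB (p o σ) fun j => (hV2 o ho σ hv j).2.2.2.2.2.1)
      exact ⟨t, c o σ, a o σ, fun i => hslH _ fun j => (hV2 o ho σ hv j).2.2.2.1 i,
        fun i => Eventually.of_forall fun j => (hV2 o ho σ hv j).2.1 i,
        Eventually.of_forall fun j => rfl⟩
    · refine hSPH M S P φ X (q o σ) _ hS hXX ?_
        (hHB (q o σ) fun j => (hV2 o ho σ hv j).2.2.2.2.2.2.1)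
      exact ⟨t, d o σ, b o σ, fun i => hslH _ fun j => (hV2 o ho σ hv j).2.2.2.2.1 i,
        fun i => Eventually.of_forall fun j => (hV2 o ho σ hv j).2.2.1 i,
        Eventually.of_forall fun j => rfl⟩
  -- denominators
  set x' : ℕ → M := fun j => x j * (l j)⁻¹ with hx'
  set y' : ℕ → M := fun j => y j * ((l j)⁻¹) ^ (g + 1) with hy'
  have hSx : IntT S₀ φ X (fun j => (m j : M) * x' j) := by
    intro ε hε
    filter_upwards [hsli ε hε] with j h1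
    obtain ⟨D, h2, h3, h4, _⟩ := h1
    obtain ⟨n, hn, hn'⟩ := f7 j
    refine ⟨D, h2, h3, n, hn, ?_⟩
    have h5 : (n : M) * ((D : M) * ((m j : M) * x' j)) =
        ((n : M) * ((m j : M) * x j)) * ((D : M) * (l j)⁻¹) := by
      rw [hx']
      ring
    rw [h5]
    exact hn'.mul h4
  have hSy : IntT S₀ φ X (fun j => (m j : M) ^ (g + 1) * y' j) := by
    intro ε hε
    filter_upwards [hcd ℕ (range (2 * g + 2)) (fun i j => (F j).coeff i) (fun i _ => hslF i)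
      (ε / 2) (by linarith), hslpow _ (g + 1) hsli (ε / 2) (by linarith)] with j h1 h2
    obtain ⟨D, h3, h4, h5⟩ := h1
    obtain ⟨D', h6, h7, h8, _⟩ := h2
    obtain ⟨n, hn, hn'⟩ := f7 j
    refine ⟨D * D', mul_ne_zero h3 h6, ?_, n ^ (g + 1), Sm_pow hn _, ?_⟩
    · push_cast
      calc (D : ℝ) * D' ≤ X j ^ (ε / 2) * X j ^ (ε / 2) :=
            mul_le_mul h4 h7 (Nat.cast_nonneg _) (Real.rpow_nonneg (Real.exp_pos _).le _)
        _ = X j ^ ε := by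
            rw [← Real.rpow_add (Real.exp_pos _)]
            congr 1
            ring
    · have h9 : ((n ^ (g + 1) : ℕ) : M) * (((D * D' : ℕ) : M) * ((m j : M) ^ (g + 1) * y' j)) =
          ((D : M) * (((n * m j : ℕ) : M) ^ (g + 1) * y j)) *
            ((D' : M) * ((l j)⁻¹) ^ (g + 1)) := by
        rw [hy']
        push_cast
        ring
      rw [h9]
      have h10 : IsIntegral ℤ (((n * m j : ℕ) : M) * x j) := by
        push_cast
        rw [mul_assoc]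
        exact hn'
      exact (int_y (f1 j) h5 h10 (f3 j)).mul h8
  have hnsl : ¬ Slw P φ X x' := by
    intro h'
    have h : Slw P φ X x := by
      have h1 := (hops _ _ h' hsll).2
      have h2 : (fun j => x' j * l j) = x := by
        funext j
        rw [hx']
        exact inv_mul_cancel_right₀ (hl0 j) (x j)
      rwa [h2] at h1
    obtain ⟨j, D, h1, h2, h3, h4⟩ := (h (1 / B) (by positivity)).exists
    rw [hXr, one_div, inv_mul_eq_div] at h2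
    refine f10 j ⟨⟨D, h1, h2, h3⟩, fun σ => ?_⟩
    have h5 := h4 σ
    rw [hXr, one_div, inv_mul_eq_div, P.inf] at h5
    exact h5
  -- the factor
  have hszl : ∀ δ : ℝ, 0 < δ → ∀ᶠ j in (φ : Filter ℕ), ∀ o ∈ plc S, ∀ σ : M ≃ₐ[ℚ] M,
      P.nv o (σ (l j)) ≤ X j ^ δ ∧ P.nv o (σ (l j)⁻¹) ≤ X j ^ δ := by
    intro δ hδ
    filter_upwards [hsll δ hδ, hsli δ hδ] with j h1 h2 o ho σ
    exact ⟨Pool.Agent.Helper94.SUBW.SP_nv hS h1 ho σ, Pool.Agent.Helper94.SUBW.SP_nv hS h2 ho σ⟩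
  have hne : (univ : Finset (Pl S M)).Nonempty :=
    ⟨(⟨none, mem_none⟩, AlgEquiv.refl), mem_univ _⟩
  set w : ℕ → ℝ := fun j => max 1 ((univ : Finset (Pl S M)).sup' hne
    fun i => P.nv i.1 (i.2 (l j)⁻¹)) with hw
  have hw1 : ∀ j, 1 ≤ w j := fun j => le_max_left _ _
  have hw2 : ∀ j, ∀ o ∈ plc S, ∀ σ : M ≃ₐ[ℚ] M, P.nv o (σ (l j)⁻¹) ≤ w j := by
    intro j o ho σ
    refine le_trans ?_ (le_max_right _ _)
    exact le_sup' (fun i : Pl S M => P.nv i.1 (i.2 (l j)⁻¹)) (mem_univ (⟨o, ho⟩, σ))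
  have hX1 : ∀ j, 1 ≤ X j := fun j => Real.one_le_exp (hL0 j)
  have hw3 : ∀ ε : ℝ, 0 < ε → ∀ᶠ j in (φ : Filter ℕ), w j ≤ X j ^ ε := by
    intro ε hε
    filter_upwards [hszl ε hε] with j h1
    refine max_le (Real.one_le_rpow (hX1 j) hε.le) ?_
    exact sup'_le _ _ fun i _ => (h1 i.1 i.1.2 i.2).2
  -- the numerical part
  have hSc : 1 ≤ ((plc S₀).card : ℝ) := by
    have : 0 < (plc S₀).card := Finset.card_pos.2 ⟨none, mem_none⟩
    exact_mod_cast this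
  set k₀ : ℝ := ((plc S₀).card : ℝ) * (Fintype.card (M ≃ₐ[ℚ] M) : ℝ) with hk
  have hc1 : 1 ≤ (Fintype.card (M ≃ₐ[ℚ] M) : ℝ) := by
    have : 0 < Fintype.card (M ≃ₐ[ℚ] M) := Fintype.card_pos
    exact_mod_cast this
  have hk1 : 1 ≤ k₀ := by
    rw [hk]
    nlinarith
  obtain ⟨ε, hε⟩ : ∃ ε : ℝ, ε = δ / (4 * k₀) := ⟨_, rfl⟩
  have hε0 : 0 < ε := by
    rw [hε]
    exact div_pos hδ (by linarith)
  have hkε : k₀ * ε = δ / 4 := by
    rw [hε]
    field_simp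
  refine hBRGP M S S₀ P φ k g (fun i j => co g (F j) i) m x' y' X p q
    (fun o σ i j => e o σ i j * l j ^ i * ((l j)⁻¹) ^ k o σ)
    (fun o σ j => u o σ j + Real.log (w j))
    (B + 1) (δ / 2) (θ / 2) hS hSS hg (by linarith) (by linarith) hXX hpM
    (fun o ho σ hv i _ => (hops _ _ (hops _ _ (hslH _ fun j => (hV1 o ho σ hv j).1 i)
      (hslpow _ i hsll)).2 (hslpow _ (k o σ) hsli)).2) (fun i _ => hsla i) hSx hSy hnsl ?_
  filter_upwards [hszl ε hε0, hw3 ε hε0, hw3 1 one_pos, hszl (θ / 2) (by linarith)] with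
    j h1 h2 h2' h1'
  have hw0 : 0 < w j := lt_of_lt_of_le one_pos (hw1 j)
  have hlw0 : 0 ≤ Real.log (w j) := Real.log_nonneg (hw1 j)
  have hB1 : X j ^ B ≤ X j ^ (B + 1) := Real.rpow_le_rpow_of_exponent_le (hX1 j) (by linarith)
  refine ⟨pol_sep (f1 j) (f2 j), pol_ev (f1 j) (f3 j), f6 j, ?_, fun o ho σ => ?_,
    fun o ho σ => ⟨?_, fun hv => ?_, fun hv => ?_⟩, ?_⟩
  · refine le_trans ?_ hB1
    rw [hXr]
    exact f8 j
  · have e1 : P.nv o (σ (x' j)) = P.nv o (σ (x j)) * P.nv o (σ (l j)⁻¹) := by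
      rw [← P.mul o ho, ← map_mul]
    rw [e1, Real.rpow_add (Real.exp_pos _)]
    refine mul_le_mul ?_ ((hw2 j o ho σ).trans h2') (P.nn _ _) (Real.rpow_nonneg
      (Real.exp_pos _).le _)
    rw [hXr]
    exact f9 j o ho σ
  · have e1 := hu1 o ho σ j
    have e2 := hL0 j
    rw [hXlog]
    linarith
  · have e1 := (hV1 o ho σ hv j).2
    have e2 : P.nv o (σ ((polD M (k o σ) (fun i => e o σ i j * l j ^ i *
        ((l j)⁻¹) ^ k o σ)).eval (x' j))) = P.nv o (σ (l j)⁻¹) ^ k o σ *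
        P.nv o (σ ((polD M (k o σ) (fun i => e o σ i j)).eval (x j))) := by
      rw [hx', polD_scale _ _ _ _ (hl0 j), map_mul, P.mul o (mem_sub hSS ho), map_pow]
      congr 1
      exact P.pow (mem_sub hSS ho) _ _
    rw [e2]
    have e3 : w j ^ k o σ * Real.exp (k o σ * min (u o σ j) (2 * u o σ j)) =
        Real.exp (k o σ * (Real.log (w j) + min (u o σ j) (2 * u o σ j))) := by
      rw [mul_add, Real.exp_add, Real.exp_nat_mul (Real.log (w j)), Real.exp_log hw0]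
    refine (mul_le_mul (pow_le_pow_left₀ (P.nn _ _) (hw2 j o (mem_sub hSS ho) σ) _) e1 (P.nn _ _)
      (pow_nonneg hw0.le _)).trans ?_
    rw [e3]
    exact Real.exp_le_exp.2 (mul_le_mul_of_nonneg_left (min_add hlw0) (Nat.cast_nonneg _))
  · obtain ⟨e1, _, _, _, _, _, _, e2, e3⟩ := hV2 o ho σ hv j
    refine ⟨?_, e2, ?_⟩
    · rcases e1 with e1 | e1
      · left
        linarith
      · right
        have e5 : P.nv o (σ (x j)) = P.nv o (σ (x' j)) * P.nv o (σ (l j)) := by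
          rw [← P.mul o (mem_sub hSS ho), ← map_mul, hx']
          congr 2
          exact (inv_mul_cancel_right₀ (hl0 j) (x j)).symm
        have e6 : X j ^ (θ / 2) * X j ^ (θ / 2) = Real.exp (θ * L j) := by
          rw [← Real.rpow_add (Real.exp_pos _), hXr]
          congr 1
          ring
        rw [e5, ← e6] at e1
        have e7 : 0 < X j ^ (θ / 2) := Real.rpow_pos_of_pos (Real.exp_pos _) _
        exact le_of_mul_le_mul_right (e1.trans (mul_le_mul_of_nonneg_left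
          (h1' o (mem_sub hSS ho) σ).1 (P.nn _ _))) e7
    · have e4 : x' j - (p o σ j / q o σ j) ^ 2 =
          (l j)⁻¹ * (x j - l j * (p o σ j / q o σ j) ^ 2) := by
        rw [hx', mul_sub, ← mul_assoc, inv_mul_cancel₀ (hl0 j), one_mul, mul_comm]
      rw [e4, map_mul, P.mul o (mem_sub hSS ho), Real.exp_add, Real.exp_log hw0, mul_comm]
      exact mul_le_mul e3 (hw2 j o (mem_sub hSS ho) σ) (P.nn _ _) (Real.exp_pos _).le
  · rw [hXlog]
    have hεL : 0 ≤ ε * L j := mul_nonneg hε0.le (hL0 j)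
    have hlw : Real.log (w j) ≤ ε * L j := by
      rw [Real.log_le_iff_le_exp hw0, ← hXr]
      exact h2
    have h3 : ∀ o ∈ plc S₀, ∀ σ : M ≃ₐ[ℚ] M,
        u o σ j + Real.log (w j) ≤ u o σ j + ε * L j :=
      fun o ho σ => add_le_add le_rfl hlw
    have h3' : ∀ o ∈ plc S₀, ∀ σ : M ≃ₐ[ℚ] M,
        Real.log (max 1 (P.nv o (σ (x j)))) ≤
          Real.log (max 1 (P.nv o (σ (x' j)))) + ε * L j := by
      intro o ho σ
      refine (one_pl (r := 0) (mem_sub hSS ho) hεL (hl0 j) ?_ ?_).2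
      · rw [← hXr]
        exact (h1 o (mem_sub hSS ho) σ).1
      · rw [← hXr]
        exact (h1 o (mem_sub hSS ho) σ).2
    have h4 : ∑ o ∈ plc S₀, ∑ σ : M ≃ₐ[ℚ] M, (u o σ j + Real.log (w j)) ≤
        ∑ o ∈ plc S₀, ∑ σ : M ≃ₐ[ℚ] M, u o σ j + k₀ * (ε * L j) := by
      refine (sum_le_sum fun o ho => sum_le_sum fun σ _ => h3 o ho σ).trans (le_of_eq ?_)
      simp only [sum_add_distrib, sum_const, card_univ, nsmul_eq_mul]
      rw [hk]
      ring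
    have h5 : ∑ o ∈ plc S₀, ∑ σ : M ≃ₐ[ℚ] M, Real.log (max 1 (P.nv o (σ (x j)))) ≤
        ∑ o ∈ plc S₀, ∑ σ : M ≃ₐ[ℚ] M, Real.log (max 1 (P.nv o (σ (x' j)))) +
        k₀ * (ε * L j) := by
      refine (sum_le_sum fun o ho => sum_le_sum fun σ _ => h3' o ho σ).trans (le_of_eq ?_)
      simp only [sum_add_distrib, sum_const, card_univ, nsmul_eq_mul]
      rw [hk]
      ring
    have h6 := hmain j
    have h7 : k₀ * (ε * L j) = δ / 4 * L j := by
      rw [← mul_assoc, hkε]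
    have h8 : 0 ≤ δ * L j := mul_nonneg hδ.le (hL0 j)
    rw [h7] at h4 h5
    linarith

end Pool.Agent.Helper48.HP
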